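import Pool.Agent.H259Z.Rich.Tower

/-! Homogeneity in the abelian cases of the tower of free solvable groups. -/

set_option autoImplicit false
set_option linter.unusedSectionVars false

namespace Pool.Agent.H259Z.Rich

section Add

variable {M : Type} [AddCommGroup M] [Module.Finite ℤ M] [Module.IsTorsionFree ℤ M]

/-- An isomorphism between saturated subgroups of a finitely generated torsion free abelian group
extends to an automorphism. -/
theorem extend_sat (P P' : Submodule ℤ M)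
    (hP : ∀ (k : ℤ) (x : M), k ≠ 0 → k • x ∈ P → x ∈ P)
    (hP' : ∀ (k : ℤ) (x : M), k ≠ 0 → k • x ∈ P' → x ∈ P') (e : P ≃ₗ[ℤ] P') :
    ∃ s : M ≃ₗ[ℤ] M, ∀ x : P, s x = e x := by
  have tf : ∀ Q : Submodule ℤ M, (∀ (k : ℤ) (x : M), k ≠ 0 → k • x ∈ Q → x ∈ Q) →
      Module.IsTorsionFree ℤ (M ⧸ Q) := by
    intro Q hQ
    refine Module.IsTorsionFree.of_smul_eq_zero fun k x hx => ?_
    obtain ⟨x, rfl⟩ := Q.mkQ_surjective x
    by_cases hk : k = 0
    · exact Or.inl hk
    · right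
      rw [← map_smul, Submodule.mkQ_apply, Submodule.Quotient.mk_eq_zero] at hx
      rw [Submodule.mkQ_apply, Submodule.Quotient.mk_eq_zero]
      exact hQ k x hk hx
  have sp : ∀ Q : Submodule ℤ M, (∀ (k : ℤ) (x : M), k ≠ 0 → k • x ∈ Q → x ∈ Q) →
      ∃ E : M ≃ₗ[ℤ] Q × (M ⧸ Q), ∀ x : Q, E.symm (x, 0) = x := by
    intro Q hQ
    have := tf Q hQ
    obtain ⟨l, hl⟩ := Module.projective_lifting_property Q.mkQ (LinearMap.id (R := ℤ))
      Q.mkQ_surjective
    have ex : Function.Exact Q.subtype Q.mkQ := LinearMap.exact_subtype_mkQ Q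
    obtain ⟨E, hE, -⟩ := (ex.splitSurjectiveEquiv Q.injective_subtype) ⟨l, hl⟩
    exact ⟨E, fun x => (LinearMap.congr_fun hE x).symm⟩
  obtain ⟨E, hE⟩ := sp P hP
  obtain ⟨E', hE'⟩ := sp P' hP'
  have := tf P hP
  have := tf P' hP'
  have h1 := P.finrank_quotient_add_finrank
  have h2 := P'.finrank_quotient_add_finrank
  have h3 := e.finrank_eq
  let q : (M ⧸ P) ≃ₗ[ℤ] (M ⧸ P') := LinearEquiv.ofFinrankEq _ _ (by omega)
  refine ⟨E.trans ((e.prodCongr q).trans E'.symm), fun x => ?_⟩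
  have : E x = (x, 0) := by rw [← hE x, LinearEquiv.apply_symm_apply]
  simp only [LinearEquiv.trans_apply, this, LinearEquiv.prodCongr_apply, map_zero]
  exact hE' _

/-- The graph of the isomorphism between the saturations. -/
def satRel {A : Type} [AddCommGroup A] (f g : A →ₗ[ℤ] M) : Submodule ℤ (M × M) where
  carrier := {p | ∃ n : ℤ, n ≠ 0 ∧ ∃ a, n • p.1 = f a ∧ n • p.2 = g a}
  zero_mem' := ⟨1, one_ne_zero, 0, by simp, by simp⟩
  add_mem' := by
    rintro p q ⟨n, hn, a, h1, h2⟩ ⟨k, hk, b, h3, h4⟩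
    refine ⟨n * k, mul_ne_zero hn hk, k • a + n • b, ?_, ?_⟩
    · rw [map_add, map_smul, map_smul, ← h1, ← h3, Prod.fst_add, smul_add, smul_smul, smul_smul,
        mul_comm k n]
    · rw [map_add, map_smul, map_smul, ← h2, ← h4, Prod.snd_add, smul_add, smul_smul, smul_smul,
        mul_comm k n]
  smul_mem' := by
    rintro c p ⟨n, hn, a, h1, h2⟩
    refine ⟨n, hn, c • a, ?_, ?_⟩
    · rw [map_smul, ← h1, Prod.smul_fst, smul_comm]
    · rw [map_smul, ← h2, Prod.smul_snd, smul_comm]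

omit [Module.Finite ℤ M] [Module.IsTorsionFree ℤ M] in
theorem div_int {A : Type} [AddCommGroup A] (f g : A →ₗ[ℤ] M)
    (h : ∀ (a : A) (n : ℕ), (∃ w, f a = n • w) → ∃ w, g a = n • w) (a : A) (n : ℤ) (x : M)
    (hx : n • x = f a) : ∃ y, n • y = g a := by
  rcases Int.natAbs_eq n with hn | hn
  · obtain ⟨w, hw⟩ := h a n.natAbs ⟨x, by rw [← hx, ← natCast_zsmul, ← hn]⟩
    exact ⟨w, by rw [hw, ← natCast_zsmul, ← hn]⟩
  · obtain ⟨w, hw⟩ := h a n.natAbs ⟨-x, by
      rw [← hx, ← natCast_zsmul, smul_neg, ← neg_smul, ← hn]⟩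
    exact ⟨-w, by rw [hw, ← natCast_zsmul, smul_neg, ← neg_smul]; congr 1; omega⟩

theorem add_homog {A : Type} [AddCommGroup A] (f g : A →ₗ[ℤ] M)
    (h : ∀ (a : A) (n : ℕ), (∃ w, f a = n • w) ↔ ∃ w, g a = n • w) :
    ∃ s : M ≃ₗ[ℤ] M, ∀ a, s (f a) = g a := by
  let R := satRel f g
  let p1 : R →ₗ[ℤ] M := (LinearMap.fst ℤ M M).comp R.subtype
  let p2 : R →ₗ[ℤ] M := (LinearMap.snd ℤ M M).comp R.subtype
  have i1 : Function.Injective p1 := by
    rw [injective_iff_map_eq_zero]
    rintro ⟨⟨x, y⟩, n, hn, a, h1, h2⟩ hx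
    have hx0 : x = 0 := hx
    subst hx0
    obtain ⟨w, hw⟩ := (h a 0).1 ⟨0, by rw [← h1]; simp⟩
    have : n • y = 0 := by rw [show n • y = g a from h2, hw, zero_smul]
    have hy : y = 0 := (smul_eq_zero.1 this).resolve_left hn
    subst hy
    rfl
  have i2 : Function.Injective p2 := by
    rw [injective_iff_map_eq_zero]
    rintro ⟨⟨x, y⟩, n, hn, a, h1, h2⟩ hy
    have hy0 : y = 0 := hy
    subst hy0
    obtain ⟨w, hw⟩ := (h a 0).2 ⟨0, by rw [← h2]; simp⟩
    have : n • x = 0 := by rw [show n • x = f a from h1, hw, zero_smul]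
    have hx : x = 0 := (smul_eq_zero.1 this).resolve_left hn
    subst hx
    rfl
  have s1 : ∀ (k : ℤ) (x : M), k ≠ 0 → k • x ∈ LinearMap.range p1 → x ∈ LinearMap.range p1 := by
    rintro k x hk ⟨⟨⟨x', y'⟩, n, hn, a, h1, h2⟩, hx⟩
    have hx' : x' = k • x := hx
    have h3 : (n * k) • x = f a := by rw [mul_smul, ← hx']; exact h1
    obtain ⟨y, hy⟩ := div_int f g (fun a n => (h a n).1) a _ x h3
    exact ⟨⟨(x, y), n * k, mul_ne_zero hn hk, a, h3, hy⟩, rfl⟩
  have s2 : ∀ (k : ℤ) (x : M), k ≠ 0 → k • x ∈ LinearMap.range p2 → x ∈ LinearMap.range p2 := by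
    rintro k y hk ⟨⟨⟨x', y'⟩, n, hn, a, h1, h2⟩, hy⟩
    have hy' : y' = k • y := hy
    have h3 : (n * k) • y = g a := by rw [mul_smul, ← hy']; exact h2
    obtain ⟨x, hx⟩ := div_int g f (fun a n => (h a n).2) a _ y h3
    exact ⟨⟨(x, y), n * k, mul_ne_zero hn hk, a, hx, h3⟩, rfl⟩
  obtain ⟨s, hs⟩ := extend_sat _ _ s1 s2
    ((LinearEquiv.ofInjective p1 i1).symm.trans (LinearEquiv.ofInjective p2 i2))
  refine ⟨s, fun a => ?_⟩
  let z : R := ⟨(f a, g a), 1, one_ne_zero, a, one_smul _ _, one_smul _ _⟩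
  have := hs (LinearEquiv.ofInjective p1 i1 z)
  rw [LinearEquiv.trans_apply, LinearEquiv.symm_apply_apply] at this
  exact this

end Add

theorem fs_comm (r d : ℕ) (h : r ≤ 1 ∨ d ≤ 1) (a b : FS r d) : a * b = b * a := by
  rcases h with h | h
  · have hg : ∀ i j, gx r d i * gx r d j = gx r d j * gx r d i := fun i j => by
      have : i = j := Fin.ext (by omega)
      rw [this]
    have h1 : ∀ i, ∀ b : FS r d, b ∈ Subgroup.centralizer {gx r d i} := by
      intro i
      rw [← Subgroup.eq_top_iff', eq_top_iff, ← gx_gen r d, Subgroup.closure_le]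
      rintro _ ⟨j, rfl⟩
      exact Subgroup.mem_centralizer_singleton_iff.2 (hg j i)
    have h2 : ∀ a : FS r d, a ∈ Subgroup.centralizer {b} := by
      rw [← Subgroup.eq_top_iff', eq_top_iff, ← gx_gen r d, Subgroup.closure_le]
      rintro _ ⟨j, rfl⟩
      exact Subgroup.mem_centralizer_singleton_iff.2
        (Subgroup.mem_centralizer_singleton_iff.1 (h1 j b)).symm
    exact Subgroup.mem_centralizer_singleton_iff.1 (h2 a)
  · rcases d with _ | d
    · exact Subsingleton.elim _ _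
    · have : d = 0 := by omega
      subst this
      exact (msd r 0).ker_comm (Subsingleton.elim _ _) (Subsingleton.elim _ _)

theorem abel_homog (r d m : ℕ) (h : r ≤ 1 ∨ d ≤ 1) (u v : Fin m → FS r d)
    (huv : ∀ (a : Fin m → ℤ) (n : ℕ),
      (∃ w, (List.ofFn fun j => u j ^ a j).prod = w ^ n) ↔
        (∃ w, (List.ofFn fun j => v j ^ a j).prod = w ^ n)) :
    ∃ s : FS r d ≃* FS r d, ∀ j, s (u j) = v j := by
  let : CommGroup (FS r d) := { (inferInstance : Group (FS r d)) with mul_comm := fs_comm r d h }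
  have fg : Group.FG (FS r d) :=
    ⟨⟨(Set.finite_range (gx r d)).toFinset, by rw [Set.Finite.coe_toFinset]; exact gx_gen r d⟩⟩
  have : Module.Finite ℤ (Additive (FS r d)) := Module.Finite.iff_addGroup_fg.2 inferInstance
  have : Module.IsTorsionFree ℤ (Additive (FS r d)) := by
    refine Module.IsTorsionFree.of_smul_eq_zero fun k x hx => ?_
    by_cases hk : k = 0
    · exact Or.inl hk
    · right
      have h1 : (x.toMul) ^ k.natAbs = 1 := by
        have h2 : x.toMul ^ k = 1 := hx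
        rw [← zpow_natCast]
        rcases Int.natAbs_eq k with e | e
        · rw [← e, h2]
        · rw [← neg_neg (k.natAbs : ℤ), ← e, zpow_neg, h2, inv_one]
      exact fs_tf r d _ _ (Int.natAbs_ne_zero.2 hk) h1
  have key : ∀ (u : Fin m → FS r d) (a : Fin m → ℤ),
      Fintype.linearCombination ℤ (fun j => Additive.ofMul (u j)) a =
        Additive.ofMul (List.ofFn fun j => u j ^ a j).prod := by
    intro u a
    rw [Fintype.linearCombination_apply, List.prod_ofFn, ofMul_prod]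
    rfl
  obtain ⟨s, hs⟩ := add_homog (Fintype.linearCombination ℤ fun j => Additive.ofMul (u j))
    (Fintype.linearCombination ℤ fun j => Additive.ofMul (v j)) (fun a n => by
      rw [key, key]
      exact huv a n)
  refine ⟨MulEquiv.toAdditive.symm s.toAddEquiv, fun j => ?_⟩
  have := hs (Pi.single j 1)
  rw [Fintype.linearCombination_apply_single, Fintype.linearCombination_apply_single, one_smul,
    one_smul] at this
  exact this

end Pool.Agent.H259Z.Rich
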